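import Mathlib
import Pool.Agent.R701.GrigTree

/-!
# Group algebras of torsion groups need not be `π`-UU

Let `H` be the (first) Grigorchuk group, acting on the vertices `X` of the binary tree, and let
`G = C₆^X ⋊ H` be the unrestricted permutational wreath product of a cyclic group of order `6` by
`H`.  It is a torsion group since `H` is.  For every field `F` of positive characteristic `p` choose
`ζ ∈ C₆` of order `2` (`p ≠ 2`) or `3` (`p = 2`).  A suitable element `ε ∈ C₆^X` with values in
`⟨ζ⟩` commutes with the generators `b`, `c` of `H`, and gives an idempotent `e ∈ FG` commuting with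
`b` and `c`; the element `β = b e + c (1 - e)` satisfies `β² = 1`, and it acts on a copy of the
permutation module `F[X]` as a permutation `τ` of `X` such that `a τ` has infinite order.
Hence the unit `a β` of `FG` has infinite order.
-/

open Pool.Agent.R701.Grig

namespace Pool.Agent.Results.MP_4717c3_al.TorsionGroupNotPiUU

/-- A ring `R` is `π`-UU if for each unit `u` of `R` there is `i ≥ 1` with `u ^ i - 1` nilpotent. -/
def IsPiUU (R : Type*) [Ring R] : Prop :=
  ∀ u : Rˣ, ∃ i : ℕ, 1 ≤ i ∧ IsNilpotent ((u : R) ^ i - 1)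

section general

variable (C : Type) [CommGroup C]

/-- The unrestricted permutational wreath product `C^X ⋊ H`. -/
abbrev Wr : Type := (X → C) ⋊[mulAutArrow] H

lemma Wr_torsion (hC : ∃ n : ℕ, 0 < n ∧ ∀ c : C, c ^ n = 1) (g : Wr C) : IsOfFinOrder g := by
  obtain ⟨n, hn, hC⟩ := hC
  obtain ⟨m, hm, hg⟩ := isOfFinOrder_iff_pow_eq_one.1 (H_torsion g.right)
  rw [isOfFinOrder_iff_pow_eq_one]
  refine ⟨m * n, Nat.mul_pos hm hn, ?_⟩
  have h1 : (g ^ m).right = 1 := by
    have : SemidirectProduct.rightHom (g ^ m) = 1 := by rw [map_pow]; exact hg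
    exact this
  have h2 : g ^ m = SemidirectProduct.inl (g ^ m).left := by
    ext
    · rfl
    · rw [h1]; rfl
  rw [pow_mul, h2, ← map_pow]
  have : ((g ^ m).left) ^ n = 1 := by
    ext x; simp [hC]
  rw [this, map_one]

/-- The action of `C^X ⋊ H` on `X × C`. -/
instance act : MulAction (Wr C) (X × C) where
  smul g z := (g.right.1 z.1, g.left (g.right.1 z.1) * z.2)
  one_smul z := by
    change ((1 : Wr C).right.1 z.1, (1 : Wr C).left ((1 : Wr C).right.1 z.1) * z.2) = z
    simp
  mul_smul g h z := by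
    change ((g * h).right.1 z.1, (g * h).left ((g * h).right.1 z.1) * z.2)
      = (g.right.1 (h.right.1 z.1), g.left (g.right.1 (h.right.1 z.1)) *
        (h.left (h.right.1 z.1) * z.2))
    have e1 : (g * h).right.1 z.1 = g.right.1 (h.right.1 z.1) := rfl
    rw [e1]
    have e2 : (g * h).left (g.right.1 (h.right.1 z.1)) = g.left (g.right.1 (h.right.1 z.1)) *
        h.left (h.right.1 z.1) := by
      rw [SemidirectProduct.mul_left, Pi.mul_apply]
      have e3 : (g.right⁻¹ : H) • (g.right.1 (h.right.1 z.1)) = h.right.1 z.1 := by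
        change (g.right⁻¹ : H).1 (g.right.1 (h.right.1 z.1)) = _
        simp
      have e4 : (mulAutArrow g.right h.left) (g.right.1 (h.right.1 z.1))
          = h.left ((g.right⁻¹ : H) • (g.right.1 (h.right.1 z.1))) := rfl
      rw [e4, e3]
    rw [e2, mul_assoc]

lemma smul_def' (g : Wr C) (z : X × C) :
    g • z = (g.right.1 z.1, g.left (g.right.1 z.1) * z.2) := rfl

variable (F : Type*) [Field F] (ζ : C) (q : ℕ)

/-- The element `ε` of `C^X`: it is `ζ` where `κ = 2` and `1` elsewhere. -/
def eps : Wr C := SemidirectProduct.inl fun x => if κ x = 2 then ζ else 1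

/-- An element of `H` in the wreath product. -/
def hh (h : H) : Wr C := SemidirectProduct.inr h

lemma eps_pow (k : ℕ) : eps C ζ ^ k = SemidirectProduct.inl fun x => if κ x = 2 then ζ ^ k else 1 := by
  rw [eps, ← map_pow]
  congr 1
  ext x
  simp only [Pi.pow_apply]
  split_ifs <;> simp

lemma hh_eps (i : ZMod 3) (hi : B i ∈ H) : hh C ⟨B i, hi⟩ * eps C ζ = eps C ζ * hh C ⟨B i, hi⟩ := by
  apply SemidirectProduct.ext
  · simp only [hh, eps, SemidirectProduct.mul_left, SemidirectProduct.left_inr,
      SemidirectProduct.right_inr, SemidirectProduct.left_inl, SemidirectProduct.right_inl,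
      one_mul, map_one, mul_one]
    ext x
    have e4 : (mulAutArrow (⟨B i, hi⟩ : H) (fun x => if κ x = 2 then ζ else 1)) x
          = if κ ((B i)⁻¹ x) = 2 then ζ else 1 := rfl
    rw [e4]
    have : κ ((B i)⁻¹ x) = κ x := by
      have h := κ_B i ((B i)⁻¹ x)
      rw [← h]; simp
    rw [this]
  · simp [hh, eps]

/-- group elements in the group algebra -/
noncomputable abbrev o (g : Wr C) : MonoidAlgebra F (Wr C) := MonoidAlgebra.of F (Wr C) g

/-- the idempotent `e` -/
noncomputable def ee : MonoidAlgebra F (Wr C) :=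
  (q : F)⁻¹ • ∑ i ∈ Finset.range q, o C F (eps C ζ) ^ i

variable (hq : (q : F) ≠ 0) (hζ : ζ ^ q = 1) (hζ1 : ζ ≠ 1)

include hζ in
lemma eps_ee : o C F (eps C ζ) * ee C F ζ q = ee C F ζ q := by
  have h1 : o C F (eps C ζ) ^ q = 1 := by
    rw [o, ← map_pow, eps_pow, hζ]
    have : (fun x : X => if κ x = 2 then (1 : C) else 1) = 1 := by ext x; simp
    rw [this, map_one, map_one]
  rw [ee, mul_smul_comm, Finset.mul_sum]
  congr 1
  have h2 : ∀ i ∈ Finset.range q, o C F (eps C ζ) * o C F (eps C ζ) ^ i
      = o C F (eps C ζ) ^ (i + 1) := fun i _ => (pow_succ' _ _).symm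
  rw [Finset.sum_congr rfl h2]
  have h3 := Finset.sum_range_succ (fun i => o C F (eps C ζ) ^ i) q
  have h4 := Finset.sum_range_succ' (fun i => o C F (eps C ζ) ^ i) q
  rw [h3, h1, pow_zero] at h4
  exact (add_right_cancel h4).symm

include hq hζ in
lemma ee_ee : ee C F ζ q * ee C F ζ q = ee C F ζ q := by
  have h : ∀ i : ℕ, o C F (eps C ζ) ^ i * ee C F ζ q = ee C F ζ q := by
    intro i
    induction i with
    | zero => simp
    | succ i ih => rw [pow_succ, mul_assoc, eps_ee C F ζ q hζ, ih]
  conv_lhs => rw [ee, smul_mul_assoc, Finset.sum_mul]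
  change (q : F)⁻¹ • ∑ i ∈ Finset.range q, o C F (eps C ζ) ^ i * ee C F ζ q = _
  rw [Finset.sum_congr rfl fun i _ => h i, Finset.sum_const, Finset.card_range, ← Nat.cast_smul_eq_nsmul F,
    smul_smul, inv_mul_cancel₀ hq, one_smul]

lemma ee_comm (x : MonoidAlgebra F (Wr C)) (hx : Commute x (o C F (eps C ζ))) :
    Commute x (ee C F ζ q) := by
  rw [ee]
  apply Commute.smul_right
  apply Commute.sum_right
  intro i _
  exact hx.pow_right i

/-- `b` in the group algebra -/
noncomputable def bb : MonoidAlgebra F (Wr C) := o C F (hh C ⟨B 2, B2_mem⟩)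
/-- `c` in the group algebra -/
noncomputable def cc : MonoidAlgebra F (Wr C) := o C F (hh C ⟨B 1, B1_mem⟩)
/-- `a` in the group algebra -/
noncomputable def aa : MonoidAlgebra F (Wr C) := o C F (hh C ⟨A, A_mem⟩)

lemma hh_mul_self {g : Equiv.Perm X} (hg : g ∈ H) (h : g * g = 1) :
    o C F (hh C ⟨g, hg⟩) * o C F (hh C ⟨g, hg⟩) = 1 := by
  rw [o, ← map_mul, hh, ← map_mul]
  have : (⟨g, hg⟩ : H) * ⟨g, hg⟩ = 1 := Subtype.ext h
  rw [this, map_one, map_one]

/-- the unit `β = b e + c (1 - e)` -/
noncomputable def beta : MonoidAlgebra F (Wr C) :=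
  bb C F * ee C F ζ q + cc C F * (1 - ee C F ζ q)

include hq hζ in
lemma beta_beta : beta C F ζ q * beta C F ζ q = 1 := by
  have hb : bb C F * bb C F = 1 := hh_mul_self C F B2_mem (B_mul_self 2)
  have hc : cc C F * cc C F = 1 := hh_mul_self C F B1_mem (B_mul_self 1)
  have he := ee_ee C F ζ q hq hζ
  have hbe : bb C F * ee C F ζ q = ee C F ζ q * bb C F :=
    ee_comm C F ζ q _ (by
      change _ * _ = _ * _
      rw [bb, o, o, ← map_mul, hh_eps, map_mul])
  have hce : cc C F * ee C F ζ q = ee C F ζ q * cc C F :=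
    ee_comm C F ζ q _ (by
      change _ * _ = _ * _
      rw [cc, o, o, ← map_mul, hh_eps, map_mul])
  rw [beta]
  generalize bb C F = b at *
  generalize cc C F = c at *
  generalize ee C F ζ q = e at *
  have h1 : b * e * (b * e) = e := by
    calc b * e * (b * e) = b * (e * b) * e := by noncomm_ring
      _ = b * (b * e) * e := by rw [hbe]
      _ = (b * b) * (e * e) := by noncomm_ring
      _ = e := by rw [hb, he, one_mul]
  have h2 : b * e * (c * (1 - e)) = 0 := by
    calc b * e * (c * (1 - e)) = b * (e * c) * (1 - e) := by noncomm_ring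
      _ = b * (c * e) * (1 - e) := by rw [hce]
      _ = b * c * (e - e * e) := by noncomm_ring
      _ = 0 := by rw [he]; simp
  have h3 : c * (1 - e) * (b * e) = 0 := by
    calc c * (1 - e) * (b * e) = c * (b * e) - c * (e * b) * e := by noncomm_ring
      _ = c * (b * e) - c * (b * e) * e := by rw [hbe]
      _ = c * b * (e - e * e) := by noncomm_ring
      _ = 0 := by rw [he]; simp
  have h4 : c * (1 - e) * (c * (1 - e)) = 1 - e := by
    calc c * (1 - e) * (c * (1 - e)) = (c * c) * (1 - e) - c * (e * c) * (1 - e) := by noncomm_ring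
      _ = (c * c) * (1 - e) - c * (c * e) * (1 - e) := by rw [hce]
      _ = (c * c) * (1 - e) - (c * c) * (e - e * e) := by noncomm_ring
      _ = 1 - e := by rw [he, hc]; simp
  calc (b * e + c * (1 - e)) * (b * e + c * (1 - e))
      = b * e * (b * e) + b * e * (c * (1 - e)) + c * (1 - e) * (b * e)
        + c * (1 - e) * (c * (1 - e)) := by noncomm_ring
    _ = 1 := by rw [h1, h2, h3, h4]; simp

/-- the permutation representation on `F[X × C]` -/
noncomputable def rep : Wr C →* Module.End F ((X × C) →₀ F) where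
  toFun g := Finsupp.lmapDomain F F (g • ·)
  map_one' := by
    apply Finsupp.lhom_ext
    intro z r
    simp
  map_mul' g h := by
    apply Finsupp.lhom_ext
    intro z r
    simp [mul_smul]

/-- the permutation representation on `F[X × C]`, on the group algebra -/
noncomputable def rho : MonoidAlgebra F (Wr C) →ₐ[F] Module.End F ((X × C) →₀ F) :=
  MonoidAlgebra.lift F (Module.End F ((X × C) →₀ F)) (Wr C) (rep C F)

lemma rho_o (g : Wr C) (z : X × C) :
    rho C F (o C F g) (Finsupp.single z 1) = Finsupp.single (g • z) 1 := by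
  rw [rho, o, MonoidAlgebra.lift_of]
  simp [rep]

/-- the vectors spanning a copy of `F[X]` -/
noncomputable def vv (x : X) : (X × C) →₀ F := Finsupp.single (x, 1) 1 - Finsupp.single (x, ζ) 1

lemma rho_hh (h : H) (x : X) : rho C F (o C F (hh C h)) (vv C F ζ x) = vv C F ζ (h.1 x) := by
  rw [vv, map_sub, rho_o, rho_o, vv, smul_def', smul_def']
  simp [hh]

lemma rho_eps (i : ℕ) (x : X) (t : C) :
    rho C F (o C F (eps C ζ) ^ i) (Finsupp.single (x, t) 1)
      = Finsupp.single (x, (if κ x = 2 then ζ ^ i else 1) * t) 1 := by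
  rw [o, ← map_pow, rho_o, eps_pow, smul_def']
  simp

include hq in
lemma rho_ee_ne (x : X) (hx : κ x ≠ 2) : rho C F (ee C F ζ q) (vv C F ζ x) = vv C F ζ x := by
  have h : ∀ i ∈ Finset.range q, rho C F (o C F (eps C ζ) ^ i) (vv C F ζ x) = vv C F ζ x := by
    intro i _
    rw [vv, map_sub, rho_eps, rho_eps, if_neg hx]; simp
  rw [ee, map_smul, map_sum, LinearMap.smul_apply, LinearMap.sum_apply, Finset.sum_congr rfl h,
    Finset.sum_const, Finset.card_range, ← Nat.cast_smul_eq_nsmul F, smul_smul, inv_mul_cancel₀ hq,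
    one_smul]

include hζ in
lemma rho_ee_eq (x : X) (hx : κ x = 2) : rho C F (ee C F ζ q) (vv C F ζ x) = 0 := by
  have h : ∀ i ∈ Finset.range q, rho C F (o C F (eps C ζ) ^ i) (vv C F ζ x)
      = (Finsupp.single (x, ζ ^ i) 1 : (X × C) →₀ F) - Finsupp.single (x, ζ ^ (i + 1)) 1 := by
    intro i _
    rw [vv, map_sub, rho_eps, rho_eps, if_pos hx, mul_one, ← pow_succ]
  rw [ee, map_smul, map_sum, LinearMap.smul_apply, LinearMap.sum_apply, Finset.sum_congr rfl h,
    Finset.sum_range_sub', hζ, pow_zero, sub_self, smul_zero]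

include hq hζ in
lemma rho_beta (x : X) : rho C F (beta C F ζ q) (vv C F ζ x) = vv C F ζ (τ x) := by
  rw [beta, map_add, map_mul, map_mul, map_sub, map_one, LinearMap.add_apply]
  simp only [Module.End.mul_apply, LinearMap.sub_apply, Module.End.one_apply]
  by_cases hx : κ x = 2
  · rw [rho_ee_eq C F ζ q hζ x hx, map_zero, sub_zero, zero_add, cc, rho_hh]
    change vv C F ζ (B 1 x) = _
    rw [B_apply, if_neg (by rw [hx]; decide)]
  · rw [rho_ee_ne C F ζ q hq x hx, sub_self, map_zero, add_zero, bb, rho_hh]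
    change vv C F ζ (B 2 x) = _
    rw [B_apply, if_neg hx]

/-- the unit `a β` -/
noncomputable def uu (hq : (q : F) ≠ 0) (hζ : ζ ^ q = 1) : (MonoidAlgebra F (Wr C))ˣ where
  val := aa C F * beta C F ζ q
  inv := beta C F ζ q * aa C F
  val_inv := by
    have ha : aa C F * aa C F = 1 := hh_mul_self C F A_mem (by ext1 x; exact af_af x)
    rw [mul_assoc, ← mul_assoc (beta C F ζ q), beta_beta C F ζ q hq hζ, one_mul, ha]
  inv_val := by
    have ha : aa C F * aa C F = 1 := hh_mul_self C F A_mem (by ext1 x; exact af_af x)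
    rw [mul_assoc, ← mul_assoc (aa C F), ha, one_mul, beta_beta C F ζ q hq hζ]

include hζ1 in
lemma uu_pow (n : ℕ) (hn : 0 < n) : (uu C F ζ q hq hζ) ^ n ≠ 1 := by
  intro h
  have h1 : (aa C F * beta C F ζ q) ^ n = 1 := by
    have := congrArg (fun u : (MonoidAlgebra F (Wr C))ˣ => (u : MonoidAlgebra F (Wr C))) h
    simpa [uu] using this
  have h2 : ∀ x, rho C F (aa C F * beta C F ζ q) (vv C F ζ x) = vv C F ζ ((A * τ) x) := by
    intro x
    rw [map_mul, Module.End.mul_apply, rho_beta C F ζ q hq hζ, aa, rho_hh]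
    rfl
  have h3 : ∀ (k : ℕ) (x : X), rho C F ((aa C F * beta C F ζ q) ^ k) (vv C F ζ x)
      = vv C F ζ (((A * τ) ^ k) x) := by
    intro k
    induction k with
    | zero => intro x; simp
    | succ k ih =>
      intro x
      rw [pow_succ, map_mul, Module.End.mul_apply, h2, ih, pow_succ]
      rfl
  apply pow_ne n hn
  ext1 x
  have h4 := h3 n x
  rw [h1, map_one, Module.End.one_apply] at h4
  by_contra hne
  have h5 := congrArg (fun f : (X × C) →₀ F => f (x, 1)) h4
  simp only [vv, Finsupp.coe_sub, Pi.sub_apply] at h5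
  rw [Finsupp.single_eq_same, Finsupp.single_eq_of_ne, Finsupp.single_eq_of_ne,
    Finsupp.single_eq_of_ne] at h5
  · simp at h5
  · intro h6; exact hne (congrArg Prod.fst h6).symm
  · intro h6; exact hne (congrArg Prod.fst h6).symm
  · intro h6; exact hζ1 (congrArg Prod.snd h6).symm

include hζ1 in
lemma not_piUU (p : ℕ) (hp : p.Prime) [CharP F p] (hq : (q : F) ≠ 0) (hζ : ζ ^ q = 1) :
    ¬ IsPiUU (MonoidAlgebra F (Wr C)) := by
  intro h
  obtain ⟨i, hi, k, hk⟩ := h (uu C F ζ q hq hζ)
  have : Fact p.Prime := ⟨hp⟩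
  have : CharP (MonoidAlgebra F (Wr C)) p := by
    apply charP_of_injective_algebraMap (R := F)
    exact (algebraMap F (MonoidAlgebra F (Wr C))).injective
  have hkp : k ≤ p ^ k := (Nat.lt_pow_self hp.one_lt).le
  have h1 : ((uu C F ζ q hq hζ : MonoidAlgebra F (Wr C)) ^ i - 1) ^ (p ^ k) = 0 :=
    pow_eq_zero_of_le hkp hk
  rw [sub_pow_char_pow_of_commute _ _ (Commute.one_right _), one_pow, sub_eq_zero, ← pow_mul] at h1
  apply uu_pow C F ζ q hq hζ hζ1 (i * p ^ k) (Nat.mul_pos hi (pow_pos hp.pos k))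
  exact Units.ext (by simpa using h1)

end general

/-- **Result.** There is a torsion group `G` such that for every prime `p` and every field `F` of
characteristic `p` the group algebra `FG` is not `π`-UU. -/
theorem result : ∃ (G : Type) (_ : Group G), (∀ g : G, IsOfFinOrder g) ∧
    ∀ (p : ℕ), p.Prime → ∀ (F : Type*) [Field F] [CharP F p], ¬ IsPiUU (MonoidAlgebra F G) := by
  refine ⟨Wr (Multiplicative (ZMod 6)), inferInstance, ?_, ?_⟩
  · apply Wr_torsion
    refine ⟨6, by norm_num, ?_⟩
    decide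
  · intro p hp F _ _
    by_cases h2 : p = 2
    · subst h2
      apply not_piUU (Multiplicative (ZMod 6)) F (Multiplicative.ofAdd 2) 3 (by decide) 2 hp
      · have : ((3 : ℕ) : F) = 1 := by
          have h := CharP.cast_eq_zero F 2
          have : ((3 : ℕ) : F) = ((2 : ℕ) : F) + 1 := by norm_num
          rw [this, h, zero_add]
        rw [this]; exact one_ne_zero
      · decide
    · apply not_piUU (Multiplicative (ZMod 6)) F (Multiplicative.ofAdd 3) 2 (by decide) p hp
      · intro h
        have := (CharP.cast_eq_zero_iff F p 2).1 h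
        have := (Nat.prime_dvd_prime_iff_eq hp Nat.prime_two).1 this
        exact h2 this
      · decide

end Pool.Agent.Results.MP_4717c3_al.TorsionGroupNotPiUU
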